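import Pool.Agent.W162.UN.TR1b

/-! # UN-TR1: right derivative of the truncated one-sided time -/

set_option autoImplicit false

open MeasureTheory Set Filter Topology

noncomputable section

namespace Pool.Agent.W162.UN

open Pool.Agent.W648.UN

theorem dlem (f : ℝ → ℝ → ℝ) (L s : ℝ)
    (hint : ∀ᶠ u in 𝓝[>] s, IntervalIntegrable (f u) volume (Real.exp (-(u - s))) 1)
    (hlim : ∀ ε > 0, ∀ᶠ u in 𝓝[>] s, ∀ x ∈ Ioo (Real.exp (-(u - s))) 1, |f u x - L| ≤ ε) :
    HasDerivWithinAt (fun u => ∫ x in Real.exp (-(u - s))..1, f u x) L (Ici s) s := by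
  rw [← hasDerivWithinAt_Ioi_iff_Ici]
  have h1 : HasDerivWithinAt (fun u => (1 - Real.exp (-(u - s))) * L) L (Ioi s) s := by
    have h2 : HasDerivAt (fun u => (1 - Real.exp (-(u - s))) * L) (-(Real.exp (-(s - s)) * (-1)) * L)
        s := by
      apply HasDerivAt.mul_const
      apply HasDerivAt.const_sub
      apply HasDerivAt.exp
      exact ((hasDerivAt_id s).sub_const s).neg
    simp only [sub_self, neg_zero, Real.exp_zero, one_mul, neg_neg] at h2
    exact h2.hasDerivWithinAt
  have h3 : HasDerivWithinAt (fun u => (∫ x in Real.exp (-(u - s))..1, f u x) -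
      (1 - Real.exp (-(u - s))) * L) 0 (Ioi s) s := by
    rw [hasDerivWithinAt_iff_isLittleO, Asymptotics.isLittleO_iff]
    intro ε hε
    filter_upwards [hint, hlim ε hε, self_mem_nhdsWithin] with u hu1 hu2 hu3
    have hu3' : s < u := hu3
    have hexp : Real.exp (-(u - s)) ≤ 1 := by
      rw [Real.exp_le_one_iff]; linarith
    simp only [sub_self, neg_zero, Real.exp_zero, intervalIntegral.integral_same, zero_mul,
      smul_zero, sub_zero]
    have e1 : (∫ x in Real.exp (-(u - s))..1, f u x) - (1 - Real.exp (-(u - s))) * L =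
        ∫ x in Real.exp (-(u - s))..1, (f u x - L) := by
      rw [intervalIntegral.integral_sub hu1 (by simp)]
      simp
    rw [e1]
    have e2 : ‖∫ x in Real.exp (-(u - s))..1, (f u x - L)‖ ≤
        ∫ x in Real.exp (-(u - s))..1, ε := by
      apply intervalIntegral.norm_integral_le_of_norm_le hexp
      · have hne : ∀ᵐ x : ℝ, x ≠ 1 := by
          simp [ae_iff]
        filter_upwards [hne] with x hx1 hx
        exact hu2 x ⟨hx.1, lt_of_le_of_ne hx.2 hx1⟩
      · simp
    refine e2.trans ?_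
    rw [intervalIntegral.integral_const, smul_eq_mul, Real.norm_eq_abs,
      abs_of_pos (by linarith : (0 : ℝ) < u - s), mul_comm ε]
    apply mul_le_mul_of_nonneg_right _ hε.le
    have := Real.add_one_le_exp (-(u - s))
    linarith
  have h4 := h3.add h1
  simp only [zero_add] at h4
  refine h4.congr_of_eventuallyEq (Eventually.of_forall fun u => ?_) ?_
  · simp
  · simp

theorem th (hD : S_D) (hE : S_EX) (hU : S_UN) (hUps : S_UPS) (hDer : S_DER) (hC : S_CTS) :
    S_TR1 := by
  intro h hcont h0 hbd s t hst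
  have hNB : ∀ u, NB (HH h u) (1 / 20) := by
    intro u
    obtain ⟨a1, a2, a3⟩ := (hC h ⟨hcont, h0, hbd⟩).1 u
    exact ⟨a1, a2, a3.trans (by norm_num)⟩
  have hex : ∀ (u b : ℝ), 0 < b → ∃ P : ℝ → ℝ, RS (fun x => h (u + Real.log x)) b P ∧
      Tau (HH h u) (b : ℂ) = ((∫ x in (0 : ℝ)..1, (P x)⁻¹ : ℝ) : ℂ) := by
    intro u b hb
    exact exRS hD hE hU hUps (fun x => h (u + Real.log x)) b hb.le (hNB u)
  set β : ℝ → ℝ := fun u => Real.exp (2 * (t - u)) - 1 with hβ
  have hβpos : ∀ u, u < t → 0 < β u := by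
    intro u hu
    have : 1 < Real.exp (2 * (t - u)) := by
      rw [Real.one_lt_exp_iff]; linarith
    simp only [hβ]; linarith
  have hex2 : ∀ u, ∃ P : ℝ → ℝ, u < t → RS (fun x => h (u + Real.log x)) (β u) P ∧
      Tau (HH h u) (β u : ℂ) = ((∫ x in (0 : ℝ)..1, (P x)⁻¹ : ℝ) : ℂ) := by
    intro u
    by_cases hu : u < t
    · obtain ⟨P, hP⟩ := hex u (β u) (hβpos u hu)
      exact ⟨P, fun _ => hP⟩
    · exact ⟨fun _ => 0, fun h => absurd h hu⟩
  choose P hP using hex2
  have hKm : ∀ u, AEStronglyMeasurable (fun x => h (u + Real.log x))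
      (volume.restrict (Ioo (0 : ℝ) 1)) := fun u =>
    (hcont.measurable.comp (measurable_const.add Real.measurable_log)).aestronglyMeasurable
  set z : ℝ := Real.sqrt (β s) with hz
  have hβs := hβpos s hst
  have hz0 : 0 < z := Real.sqrt_pos.mpr hβs
  have hzz : z ^ 2 = β s := Real.sq_sqrt hβs.le
  set J1 : ℝ → ℝ := fun u => ∫ x in Real.exp (-(u - s))..1, h (u + Real.log x) * P u x with hJ1
  set J2 : ℝ → ℝ := fun u => ∫ x in Real.exp (-(u - s))..1, (P u x)⁻¹ with hJ2
  -- integrability
  have hI1 : ∀ u, u < t → IntegrableOn (fun x => h (u + Real.log x) * P u x) (Ioo (0 : ℝ) 1) := by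
    intro u hu
    exact ((hP u hu).1.ws).intg (by positivity) (hKm u) (fun x _ => hbd _)
  have hI2 : ∀ u, u < t → IntegrableOn (fun x => (P u x)⁻¹) (Ioo (0 : ℝ) 1) := by
    intro u hu
    have hw := (hP u hu).1.ws
    have hc0 : 0 < 3 / 4 * Real.sqrt (β u) := by
      have := Real.sqrt_pos.mpr (hβpos u hu)
      positivity
    apply Integrable.of_bound (C := (3 / 4 * Real.sqrt (β u))⁻¹)
    · apply ContinuousOn.aestronglyMeasurable _ measurableSet_Ioo
      apply (hw.co.mono Ioo_subset_Ico_self).inv₀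
      intro x hx
      have := hw.lo x ⟨hx.1.le, hx.2⟩
      linarith
    · rw [ae_restrict_iff' measurableSet_Ioo]
      filter_upwards with x hx
      have := hw.lo x ⟨hx.1.le, hx.2⟩
      rw [norm_inv, Real.norm_eq_abs, abs_of_pos (by linarith)]
      exact inv_anti₀ hc0 this
  have hlt : ∀ᶠ u in 𝓝[>] s, u < t :=
    mem_nhdsWithin_of_mem_nhds (Iio_mem_nhds hst)
  -- uniform estimate for P
  set Cc : ℝ := 2 + 2 * Real.exp (2 * (t - s)) + 2 * (1 / 200 * (5 / 4 * Real.sqrt (1 + β s))) with hCc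
  have hCc0 : 0 < Cc := by positivity
  have hPsq : ∀ u, s < u → u < t → ∀ x ∈ Ioo (Real.exp (-(u - s))) 1,
      |P u x - z| ≤ Cc / z * (u - s) := by
    intro u hsu hut x hx
    have hx0 : 0 < x := (Real.exp_pos _).trans hx.1
    have hxI : x ∈ Ico (0 : ℝ) 1 := ⟨hx0.le, hx.2⟩
    have hR := (hP u hut).1
    have e1 := hR.eq x hxI
    have h1x : 1 - x ≤ u - s := by
      have := Real.add_one_le_exp (-(u - s))
      linarith [hx.1]
    have b1 : β s - β u ≤ 2 * Real.exp (2 * (t - s)) * (u - s) := by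
      simp only [hβ]
      have e : Real.exp (2 * (t - u)) = Real.exp (2 * (t - s)) * Real.exp (-(2 * (u - s))) := by
        rw [← Real.exp_add]; ring_nf
      rw [e]
      have h2 := Real.add_one_le_exp (-(2 * (u - s)))
      have h3 := Real.exp_pos (2 * (t - s))
      nlinarith
    have b0 : β u ≤ β s := by
      simp only [hβ]
      have := Real.exp_le_exp.mpr (by linarith : 2 * (t - u) ≤ 2 * (t - s))
      linarith
    have b2 : |∫ y in x..1, h (u + Real.log y) * P u y| ≤
        1 / 200 * (5 / 4 * Real.sqrt (1 + β s)) * (1 - x) := by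
      rw [← Real.norm_eq_abs]
      have e2 : ‖∫ y in x..1, h (u + Real.log y) * P u y‖ ≤
          ∫ y in x..1, 1 / 200 * (5 / 4 * Real.sqrt (1 + β s)) := by
        apply intervalIntegral.norm_integral_le_of_norm_le hx.2.le
        · have hne : ∀ᵐ x : ℝ, x ≠ 1 := by
            simp [ae_iff]
          filter_upwards [hne] with y hy1 hy
          have hyI : y ∈ Ico (0 : ℝ) 1 := ⟨(hx0.trans hy.1).le, lt_of_le_of_ne hy.2 hy1⟩
          have hw := hR.ws
          have l1 := hw.lo y hyI
          have l2 := hw.hi y hyI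
          have l3 : 0 ≤ 3 / 4 * Real.sqrt (β u) := by positivity
          have l4 : Real.sqrt (1 + β u) ≤ Real.sqrt (1 + β s) :=
            Real.sqrt_le_sqrt (by linarith)
          rw [norm_mul, Real.norm_eq_abs, Real.norm_eq_abs]
          apply mul_le_mul (hbd _) _ (abs_nonneg _) (by norm_num)
          rw [abs_of_nonneg (by linarith)]
          linarith
        · simp
      refine e2.trans (le_of_eq ?_)
      rw [intervalIntegral.integral_const, smul_eq_mul]
      ring
    rw [abs_le] at b2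
    have hG : 0 ≤ 1 / 200 * (5 / 4 * Real.sqrt (1 + β s)) := by positivity
    have b3 : 1 / 200 * (5 / 4 * Real.sqrt (1 + β s)) * (1 - x) ≤
        1 / 200 * (5 / 4 * Real.sqrt (1 + β s)) * (u - s) := mul_le_mul_of_nonneg_left h1x hG
    have hE0 := Real.exp_pos (2 * (t - s))
    have b4 : |P u x ^ 2 - z ^ 2| ≤ Cc * (u - s) := by
      rw [e1, hzz, hCc, abs_le]
      constructor
      · nlinarith [hx.2]
      · have : 1 - x ^ 2 ≤ 2 * (1 - x) := by nlinarith [sq_nonneg (1 - x)]
        have : 0 ≤ 2 * Real.exp (2 * (t - s)) * (u - s) := by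
          have : 0 ≤ u - s := by linarith
          positivity
        nlinarith
    have hPpos : 0 < P u x := by
      have := hR.ws.lo x hxI
      have h4 := Real.sqrt_pos.mpr (hβpos u hut)
      linarith
    have e5 : P u x ^ 2 - z ^ 2 = (P u x + z) * (P u x - z) := by ring
    rw [e5, abs_mul, abs_of_pos (by linarith)] at b4
    have b5 : z * |P u x - z| ≤ Cc * (u - s) := by
      refine le_trans ?_ b4
      apply mul_le_mul_of_nonneg_right _ (abs_nonneg _)
      linarith
    rw [div_mul_eq_mul_div, le_div_iff₀ hz0, mul_comm]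
    exact b5
  have hPlim : ∀ ε > 0, ∀ᶠ u in 𝓝[>] s, ∀ x ∈ Ioo (Real.exp (-(u - s))) 1, |P u x - z| ≤ ε := by
    intro ε hε
    have h1 : ∀ᶠ u in 𝓝[>] s, u < s + ε * z / Cc :=
      mem_nhdsWithin_of_mem_nhds (Iio_mem_nhds (by
        have : 0 < ε * z / Cc := by positivity
        linarith))
    filter_upwards [h1, hlt, self_mem_nhdsWithin] with u hu1 hu2 hu3 x hx
    refine (hPsq u hu3 hu2 x hx).trans ?_
    have : u - s ≤ ε * z / Cc := by linarith
    calc Cc / z * (u - s) ≤ Cc / z * (ε * z / Cc) := by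
          apply mul_le_mul_of_nonneg_left this (by positivity)
      _ = ε := by field_simp
  have hKlim : ∀ ε > 0, ∀ᶠ u in 𝓝[>] s, ∀ x ∈ Ioo (Real.exp (-(u - s))) 1,
      |h (u + Real.log x) - h s| ≤ ε := by
    intro ε hε
    obtain ⟨η, hη, hη2⟩ := Metric.continuous_iff.mp hcont s ε hε
    have h1 : ∀ᶠ u in 𝓝[>] s, u < s + η :=
      mem_nhdsWithin_of_mem_nhds (Iio_mem_nhds (by linarith))
    filter_upwards [h1, self_mem_nhdsWithin] with u hu1 hu3 x hx
    have hx0 : 0 < x := (Real.exp_pos _).trans hx.1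
    have l1 : -(u - s) < Real.log x := (Real.lt_log_iff_exp_lt hx0).mpr hx.1
    have l2 : Real.log x < 0 := Real.log_neg hx0 hx.2
    have := hη2 (u + Real.log x) (by
      rw [Real.dist_eq, abs_lt]; constructor <;> linarith)
    rw [Real.dist_eq] at this
    exact this.le
  have hd1 : HasDerivWithinAt J1 (h s * z) (Ici s) s := by
    apply dlem (fun u x => h (u + Real.log x) * P u x)
    · filter_upwards [hlt, self_mem_nhdsWithin] with u hu hu3
      have hu3' : s < u := hu3
      apply ii_of (hI1 u hu) _ (by norm_num)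
      exact ⟨(Real.exp_pos _).le, by rw [Real.exp_le_one_iff]; linarith⟩
    · intro ε hε
      set e1 : ℝ := min 1 (ε / (z + 1 + |h s|)) with he1
      have hpos : 0 < z + 1 + |h s| := by positivity
      have he1p : 0 < e1 := lt_min one_pos (by positivity)
      have he11 : e1 ≤ 1 := min_le_left _ _
      have he12 : e1 * (z + 1 + |h s|) ≤ ε := by
        rw [← le_div_iff₀ hpos]; exact min_le_right _ _
      filter_upwards [hPlim e1 he1p, hKlim e1 he1p] with u hu1 hu2 x hx
      have a1 := hu1 x hx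
      have a2 := hu2 x hx
      have a3 : |P u x| ≤ z + 1 := by
        rw [abs_le] at a1 ⊢
        constructor <;> linarith
      have e6 : h (u + Real.log x) * P u x - h s * z =
          (h (u + Real.log x) - h s) * P u x + h s * (P u x - z) := by ring
      simp only [e6]
      refine (abs_add_le _ _).trans ?_
      rw [abs_mul, abs_mul]
      have b1 : |h (u + Real.log x) - h s| * |P u x| ≤ e1 * (z + 1) :=
        mul_le_mul a2 a3 (abs_nonneg _) he1p.le
      have b2 : |h s| * |P u x - z| ≤ |h s| * e1 := mul_le_mul_of_nonneg_left a1 (abs_nonneg _)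
      linarith
  have hd2 : HasDerivWithinAt J2 z⁻¹ (Ici s) s := by
    apply dlem (fun u x => (P u x)⁻¹)
    · filter_upwards [hlt, self_mem_nhdsWithin] with u hu hu3
      have hu3' : s < u := hu3
      apply ii_of (hI2 u hu) _ (by norm_num)
      exact ⟨(Real.exp_pos _).le, by rw [Real.exp_le_one_iff]; linarith⟩
    · intro ε hε
      have he1p : 0 < min (z / 2) (ε * z ^ 2 / 2) := lt_min (by positivity) (by positivity)
      filter_upwards [hPlim _ he1p] with u hu1 x hx
      have a1 := hu1 x hx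
      have a2 := a1.trans (min_le_left _ _)
      have a3 := a1.trans (min_le_right _ _)
      rw [abs_le] at a2
      have a4 : z / 2 ≤ P u x := by linarith
      have a5 : 0 < P u x := by linarith
      have e6 : (P u x)⁻¹ - z⁻¹ = -(P u x - z) / (P u x * z) := by
        field_simp
        ring
      simp only [e6]
      rw [abs_div, abs_neg, abs_of_pos (by positivity : 0 < P u x * z),
        div_le_iff₀ (by positivity)]
      refine a3.trans ?_
      nlinarith [mul_pos hε hz0]
  -- the parameter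
  set bt : ℝ → ℝ := fun u => β s + 2 * (Real.exp (2 * (u - s)) * J1 u) with hbt
  have hJ1s : J1 s = 0 := by simp [hJ1]
  have hJ2s : J2 s = 0 := by simp [hJ2]
  have hbts : bt s = β s := by simp [hbt, hJ1s]
  have hdbt : HasDerivWithinAt bt (2 * h s * z) (Ici s) s := by
    have h1 : HasDerivAt (fun u : ℝ => Real.exp (2 * (u - s))) (Real.exp (2 * (s - s)) * (2 * 1)) s := by
      apply HasDerivAt.exp
      apply HasDerivAt.const_mul
      exact (hasDerivAt_id s).sub_const s
    have h2 := ((h1.hasDerivWithinAt (s := Ici s)).mul hd1).const_mul 2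
    have h3 := h2.const_add (β s)
    refine h3.congr_deriv ?_
    simp [hJ1s]
    ring
  have hbtpos : ∀ᶠ u in 𝓝[≥] s, 0 < bt u := by
    have : Tendsto bt (𝓝[≥] s) (𝓝 (bt s)) := hdbt.continuousWithinAt
    rw [hbts] at this
    exact this.eventually (lt_mem_nhds hβs)
  have hlt' : ∀ᶠ u in 𝓝[≥] s, u < t :=
    mem_nhdsWithin_of_mem_nhds (Iio_mem_nhds hst)
  -- the derivative with respect to the parameter
  have hcH : ContinuousOn (HH h s) (Ioo (0 : ℝ) 1) := by
    unfold HH
    apply Complex.continuous_ofReal.comp_continuousOn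
    apply hcont.comp_continuousOn
    apply continuousOn_const.add
    exact Real.continuousOn_log.mono (fun x hx => hx.1.ne')
  have hbH : ∃ C : ℝ, ∀ x ∈ Ioo (0 : ℝ) 1, ‖HH h s x‖ ≤ C := by
    refine ⟨1 / 200, fun x _ => ?_⟩
    unfold HH
    rw [Complex.norm_real, Real.norm_eq_abs]
    exact hbd _
  have hg := hDer (HH h s) hcH hbH (hNB s) (β s) hβs
  rw [← hbts] at hg
  have hcomp := HasDerivAt.scomp_hasDerivWithinAt s hg hdbt
  have hd2c : HasDerivWithinAt (fun u => ((J2 u : ℝ) : ℂ)) ((z⁻¹ : ℝ) : ℂ) (Ici s) s := hd2.ofReal_comp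
  have hdat : HasDerivAt (fun u : ℝ => Real.arctan (Real.sqrt (Real.exp (2 * (t - u)) - 1)))
      (-z⁻¹) s := by
    have h1 : HasDerivAt (fun u : ℝ => Real.exp (2 * (t - u)) - 1)
        (Real.exp (2 * (t - s)) * (2 * (-1))) s := by
      apply HasDerivAt.sub_const
      apply HasDerivAt.exp
      apply HasDerivAt.const_mul
      exact (hasDerivAt_id s).const_sub t
    have h2 := (h1.sqrt hβs.ne').arctan
    refine h2.congr_deriv ?_
    have e1 : Real.sqrt (Real.exp (2 * (t - s)) - 1) = z := rfl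
    rw [e1, hzz]
    have e2 : β s = Real.exp (2 * (t - s)) - 1 := rfl
    rw [e2]
    have := Real.exp_pos (2 * (t - s))
    have e3 : (1 + (Real.exp (2 * (t - s)) - 1)) = Real.exp (2 * (t - s)) := by ring
    rw [e3]
    field_simp
  have hdatc : HasDerivWithinAt (fun u : ℝ =>
      ((Real.arctan (Real.sqrt (Real.exp (2 * (t - u)) - 1)) : ℝ) : ℂ))
      ((-z⁻¹ : ℝ) : ℂ) (Ici s) s := hdat.hasDerivWithinAt.ofReal_comp
  have htot := (hcomp.add hd2c).add hdatc
  have hscale : ∀ᶠ u in 𝓝[≥] s, Tau (HH h u) (β u : ℂ) = Tau (HH h s) (bt u : ℂ) + ((J2 u : ℝ) : ℂ) := by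
    filter_upwards [hbtpos, hlt', self_mem_nhdsWithin] with u hu1 hu2 hu3
    obtain ⟨hR, hT⟩ := hP u hu2
    obtain ⟨Q, hQ, hQT⟩ := hex s (bt u) hu1
    obtain ⟨hW, hsc⟩ := scale hcont hbd hu3 (hβpos u hu2) hR
    have e1 : (Real.exp (2 * (u - s)) * (1 + β u) - 1) + 2 * Real.exp (2 * (u - s)) *
        (∫ x in Real.exp (-(u - s))..1, h (u + Real.log x) * P u x) = bt u := by
      have e2 : Real.exp (2 * (u - s)) * (1 + β u) = 1 + β s := by
        simp only [hβ]
        have e3 : ∀ a : ℝ, 1 + (Real.exp a - 1) = Real.exp a := fun a => by ring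
        rw [e3, e3, ← Real.exp_add]
        ring_nf
      rw [e2]
      simp only [hbt, hJ1]
      ring
    rw [e1] at hW
    have hc1 : 0 < 3 / 4 * Real.sqrt (β u) := by
      have := Real.sqrt_pos.mpr (hβpos u hu2)
      positivity
    have hc2 : 0 < 3 / 4 * Real.sqrt (bt u) := by
      have := Real.sqrt_pos.mpr hu1
      positivity
    have huniq := hW.unique hQ.ws hc1 hc2 (hKm s) (fun x _ => hbd _)
    rw [hT, hQT, hsc]
    push_cast
    congr 1
    norm_cast
    apply icongr zero_le_one
    intro x hx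
    rw [← huniq x ⟨hx.1.le, hx.2⟩]
  have hfin : HasDerivWithinAt (fun u => Tau (HH h u) (β u : ℂ) +
      ((Real.arctan (Real.sqrt (Real.exp (2 * (t - u)) - 1)) : ℝ) : ℂ))
      ((2 * h s * z) • (1 / 2 * Ups (HH h s) (bt s : ℂ) - ((1 / (2 * Real.sqrt (bt s)) : ℝ) : ℂ)) +
        ((z⁻¹ : ℝ) : ℂ) + ((-z⁻¹ : ℝ) : ℂ)) (Ici s) s := by
    refine htot.congr_of_eventuallyEq ?_ ?_
    · filter_upwards [hscale] with u hu
      rw [hu]
      simp
    · have := hscale.self_of_nhdsWithin (mem_Ici.mpr le_rfl)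
      rw [this]
      simp
  refine hfin.congr_deriv ?_
  rw [hbts]
  have e9 : Real.sqrt (Real.exp (2 * (t - s)) - 1) = z := rfl
  rw [e9]
  have hzc : (z : ℂ) ≠ 0 := by exact_mod_cast hz0.ne'
  have e10 : (Real.exp (2 * (t - s)) - 1) = β s := rfl
  rw [e10, Complex.real_smul]
  push_cast
  field_simp
  ring

end Pool.Agent.W162.UN
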