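import Pool.Agent.W648.UN.Stm

/-! # UN-TR1: real solutions, uniqueness -/

set_option autoImplicit false

open MeasureTheory Set Filter Topology

noncomputable section

namespace Pool.Agent.W162.UN

open Pool.Agent.W648.UN

/-- real solution -/
structure RS (K : ℝ → ℝ) (b : ℝ) (P : ℝ → ℝ) : Prop where
  c : ContinuousOn P (Ico (0 : ℝ) 1)
  lo : ∀ x ∈ Ico (0 : ℝ) 1, 3 / 4 * Real.sqrt (1 - x ^ 2 + b) ≤ P x
  hi : ∀ x ∈ Ico (0 : ℝ) 1, P x ≤ 5 / 4 * Real.sqrt (1 - x ^ 2 + b)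
  eq : ∀ x ∈ Ico (0 : ℝ) 1, P x ^ 2 = 1 - x ^ 2 + b + 2 * ∫ s in x..1, K s * P s

theorem icongr {E : Type} [NormedAddCommGroup E] [NormedSpace ℝ E] {a b : ℝ} (hab : a ≤ b)
    {f g : ℝ → E} (h : ∀ x ∈ Ioo a b, f x = g x) :
    ∫ x in a..b, f x = ∫ x in a..b, g x := by
  rw [intervalIntegral.integral_of_le hab, intervalIntegral.integral_of_le hab,
        integral_Ioc_eq_integral_Ioo, integral_Ioc_eq_integral_Ioo]
  exact setIntegral_congr_fun measurableSet_Ioo h

theorem iconj {a b : ℝ} (hab : a ≤ b) {f : ℝ → ℂ} :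
    (starRingEnd ℂ) (∫ x in a..b, f x) = ∫ x in a..b, (starRingEnd ℂ) (f x) := by
  rw [intervalIntegral.integral_of_le hab, intervalIntegral.integral_of_le hab, integral_conj]

theorem exRS (hD : S_D) (hE : S_EX) (hU : S_UN) (hUps : S_UPS) (K : ℝ → ℝ) (b : ℝ) (hb : 0 ≤ b)
    (hK : NB (fun x => (K x : ℂ)) (1 / 20)) :
    ∃ P : ℝ → ℝ, RS K b P ∧
      Tau (fun x => (K x : ℂ)) (b : ℂ) = ((∫ x in (0 : ℝ)..1, (P x)⁻¹ : ℝ) : ℂ) := by
  have hbO : (b : ℂ) ∈ Om := by
    simp [Om, hb]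
  obtain ⟨hD1, -, -, -, hD5⟩ := hD
  obtain ⟨p, q, E, hS⟩ := hE ℂ (fun x => (K x : ℂ)) (b : ℂ) hK hbO
  have hconj : Sol (fun x => (K x : ℂ)) (b : ℂ) (fun x => (starRingEnd ℂ) (p x))
      (fun x => (starRingEnd ℂ) (q x)) (fun x => (starRingEnd ℂ) (E x)) := by
    have hDc : ∀ x ∈ Icc (0 : ℝ) 1, (starRingEnd ℂ) (D (b : ℂ) x) = D (b : ℂ) x := by
      intro x hx
      rw [hD5 b hb x hx, Complex.conj_ofReal]
    refine ⟨?_, ?_, ?_, ?_, ?_, ?_, ?_, ?_⟩
    · exact Complex.continuous_conj.comp_continuousOn hS.cp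
    · exact Complex.continuous_conj.comp_continuousOn hS.cq
    · exact Complex.continuous_conj.comp_continuousOn hS.cE
    · intro x hx
      have h := hS.bp x hx
      have e : (starRingEnd ℂ) (p x) - 1 = (starRingEnd ℂ) (p x - 1) := by simp
      rw [e, RCLike.norm_conj]; exact h
    · intro x hx
      have h := hS.bE x hx
      have e : (starRingEnd ℂ) (E x) - 1 = (starRingEnd ℂ) (E x - 1) := by simp
      rw [e, RCLike.norm_conj]; exact h
    · intro x hx
      have h := hS.pq x hx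
      have := congrArg (starRingEnd ℂ) h
      simpa using this
    · intro x hx
      have h := hS.ep x hx
      have h2 := congrArg (starRingEnd ℂ) h
      have hx' : x ∈ Icc (0 : ℝ) 1 := ⟨hx.1, hx.2.le⟩
      simp only [smul_eq_mul, map_pow, map_add, map_one, map_mul, map_inv₀, hDc x hx'] at h2 ⊢
      rw [h2, map_ofNat]
      congr 2
      · rw [iconj hx.2.le]
        apply icongr hx.2.le
        intro s hs
        have hs' : s ∈ Icc (0 : ℝ) 1 := ⟨hx.1.trans hs.1.le, hs.2.le⟩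
        simp only [map_mul, hDc s hs', Complex.conj_ofReal]
    · intro x hx
      have h := hS.eE x hx
      have h2 := congrArg (starRingEnd ℂ) h
      have hx' : x ∈ Icc (0 : ℝ) 1 := ⟨hx.1, hx.2.le⟩
      simp only [smul_eq_mul, map_add, map_one] at h2 ⊢
      rw [h2]
      congr 1
      · rw [iconj hx.2.le]
        apply icongr hx.2.le
        intro s hs
        have hs' : s ∈ Icc (0 : ℝ) 1 := ⟨hx.1.trans hs.1.le, hs.2.le⟩
        simp only [map_mul, map_inv₀, hDc s hs', Complex.conj_ofReal]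
  have hun := hU ℂ (fun x => (K x : ℂ)) (b : ℂ) p q E _ _ _ hK hbO hS hconj
  have hpr : ∀ x ∈ Ico (0 : ℝ) 1, ((p x).re : ℂ) = p x := by
    intro x hx
    exact (Complex.conj_eq_iff_re.mp (hun x hx).1.symm)
  refine ⟨fun x => Real.sqrt (1 - x ^ 2 + b) * (p x).re, ⟨?_, ?_, ?_, ?_⟩, ?_⟩
  · apply ContinuousOn.mul
    · apply Continuous.continuousOn
      fun_prop
    · exact Complex.continuous_re.comp_continuousOn hS.cp
  · intro x hx
    have h := hS.bp x hx
    have h1 : |(p x - 1).re| ≤ 1 / 4 := (Complex.abs_re_le_norm _).trans h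
    rw [abs_le] at h1
    simp only [Complex.sub_re, Complex.one_re] at h1
    have h2 := Real.sqrt_nonneg (1 - x ^ 2 + b)
    show _ ≤ _
    nlinarith
  · intro x hx
    have h := hS.bp x hx
    have h1 : |(p x - 1).re| ≤ 1 / 4 := (Complex.abs_re_le_norm _).trans h
    rw [abs_le] at h1
    simp only [Complex.sub_re, Complex.one_re] at h1
    have h2 := Real.sqrt_nonneg (1 - x ^ 2 + b)
    show _ ≤ _
    nlinarith
  · intro x hx
    have hx' : x ∈ Icc (0 : ℝ) 1 := ⟨hx.1, hx.2.le⟩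
    have h := hS.ep x hx
    obtain ⟨hne, hsq, -⟩ := hD1 (b : ℂ) hbO x hx
    have hcast : ((Real.sqrt (1 - x ^ 2 + b) * (p x).re : ℝ) : ℂ) = D (b : ℂ) x * p x := by
      push_cast
      rw [hpr x hx, ← hD5 b hb x hx']
    have hint : (∫ s in x..1, D (b : ℂ) s • ((K s : ℂ) * p s)) =
        ((∫ s in x..1, K s * (Real.sqrt (1 - s ^ 2 + b) * (p s).re) : ℝ) : ℂ) := by
      rw [← intervalIntegral.integral_ofReal]
      rw [intervalIntegral.integral_of_le hx.2.le, intervalIntegral.integral_of_le hx.2.le,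
        integral_Ioc_eq_integral_Ioo, integral_Ioc_eq_integral_Ioo]
      apply setIntegral_congr_fun measurableSet_Ioo
      intro s hs
      have hs' : s ∈ Ico (0 : ℝ) 1 := ⟨hx.1.trans hs.1.le, hs.2⟩
      have hs'' : s ∈ Icc (0 : ℝ) 1 := ⟨hx.1.trans hs.1.le, hs.2.le⟩
      simp only [smul_eq_mul]
      push_cast
      rw [hpr s hs', ← hD5 b hb s hs'']
      ring
    have h3 : (D (b : ℂ) x * p x) ^ 2 = 1 - (x : ℂ) ^ 2 + b +
        2 * ((∫ s in x..1, K s * (Real.sqrt (1 - s ^ 2 + b) * (p s).re) : ℝ) : ℂ) := by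
      rw [mul_pow, h, hint, ← hsq, smul_eq_mul]
      field_simp
    rw [← hcast] at h3
    have h4 : (((Real.sqrt (1 - x ^ 2 + b) * (p x).re) ^ 2 : ℝ) : ℂ) =
        ((1 - x ^ 2 + b + 2 * ∫ s in x..1, K s * (Real.sqrt (1 - s ^ 2 + b) * (p s).re) : ℝ) : ℂ) := by
      push_cast at h3 ⊢
      exact h3
    exact_mod_cast h4
  · rw [(hUps ℂ _ (b : ℂ) p q E hK hbO hS).2, tauOf, ← intervalIntegral.integral_ofReal]
    rw [intervalIntegral.integral_of_le zero_le_one, intervalIntegral.integral_of_le zero_le_one,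
        integral_Ioc_eq_integral_Ioo, integral_Ioc_eq_integral_Ioo]
    apply setIntegral_congr_fun measurableSet_Ioo
    intro s hs
    have hs' : s ∈ Ico (0 : ℝ) 1 := ⟨hs.1.le, hs.2⟩
    have hs'' : s ∈ Icc (0 : ℝ) 1 := ⟨hs.1.le, hs.2.le⟩
    have hq := hS.pq s hs'
    have hp0 : p s ≠ 0 := left_ne_zero_of_mul_eq_one hq
    have hq' : q s = (p s)⁻¹ := by
      exact eq_inv_of_mul_eq_one_right hq
    simp only [smul_eq_mul]
    push_cast
    rw [hpr s hs', ← hD5 b hb s hs'', mul_inv, hq']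

/-- integrability of the product -/
theorem RS.intg {K : ℝ → ℝ} {b : ℝ} {P : ℝ → ℝ} (h : RS K b P) {C : ℝ}
    (hKm : AEStronglyMeasurable K (volume.restrict (Ioo (0 : ℝ) 1)))
    (hKb : ∀ x ∈ Ioo (0 : ℝ) 1, |K x| ≤ C) (hb : 0 ≤ b) :
    IntegrableOn (fun s => K s * P s) (Ioo (0 : ℝ) 1) := by
  have hPm : AEStronglyMeasurable P (volume.restrict (Ioo (0 : ℝ) 1)) :=
    (h.c.mono Ioo_subset_Ico_self).aestronglyMeasurable measurableSet_Ioo
  have hC : 0 ≤ C := (abs_nonneg _).trans (hKb (1 / 2) (by norm_num))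
  apply Integrable.of_bound (C := C * (5 / 4 * Real.sqrt (1 + b)))
  · exact hKm.mul hPm
  · rw [ae_restrict_iff' measurableSet_Ioo]
    filter_upwards with x hx
    rw [norm_mul, Real.norm_eq_abs, Real.norm_eq_abs]
    apply mul_le_mul (hKb x hx) _ (abs_nonneg _) hC
    have hx' : x ∈ Ico (0 : ℝ) 1 := ⟨hx.1.le, hx.2⟩
    have h1 := h.lo x hx'
    have h2 := h.hi x hx'
    have h3 := Real.sqrt_nonneg (1 - x ^ 2 + b)
    have h4 : Real.sqrt (1 - x ^ 2 + b) ≤ Real.sqrt (1 + b) := by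
      apply Real.sqrt_le_sqrt
      nlinarith [hx.1]
    rw [abs_of_nonneg (by linarith)]
    linarith

end Pool.Agent.W162.UN
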