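import Pool.Agent.W162.UN.TR1a

/-! # UN-TR1: uniqueness, scaling -/

set_option autoImplicit false

open MeasureTheory Set Filter Topology

noncomputable section

namespace Pool.Agent.W162.UN

open Pool.Agent.W648.UN

/-- weak real solution -/
structure WS (K : ℝ → ℝ) (b : ℝ) (P : ℝ → ℝ) (c M : ℝ) : Prop where
  co : ContinuousOn P (Ico (0 : ℝ) 1)
  lo : ∀ x ∈ Ico (0 : ℝ) 1, c ≤ P x
  hi : ∀ x ∈ Ico (0 : ℝ) 1, P x ≤ M
  eq : ∀ x ∈ Ico (0 : ℝ) 1, P x ^ 2 = 1 - x ^ 2 + b + 2 * ∫ s in x..1, K s * P s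

theorem RS.ws {K : ℝ → ℝ} {b : ℝ} {P : ℝ → ℝ} (h : RS K b P) :
    WS K b P (3 / 4 * Real.sqrt b) (5 / 4 * Real.sqrt (1 + b)) := by
  refine ⟨h.c, ?_, ?_, h.eq⟩
  · intro x hx
    refine le_trans ?_ (h.lo x hx)
    have : Real.sqrt b ≤ Real.sqrt (1 - x ^ 2 + b) := by
      apply Real.sqrt_le_sqrt
      nlinarith [hx.1, hx.2]
    linarith
  · intro x hx
    refine le_trans (h.hi x hx) ?_
    have : Real.sqrt (1 - x ^ 2 + b) ≤ Real.sqrt (1 + b) := by
      apply Real.sqrt_le_sqrt
      nlinarith [hx.1, hx.2]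
    linarith

theorem WS.intg {K : ℝ → ℝ} {b : ℝ} {P : ℝ → ℝ} {c M : ℝ} (h : WS K b P c M) (hc : 0 ≤ c) {C : ℝ}
    (hKm : AEStronglyMeasurable K (volume.restrict (Ioo (0 : ℝ) 1)))
    (hKb : ∀ x ∈ Ioo (0 : ℝ) 1, |K x| ≤ C) :
    IntegrableOn (fun s => K s * P s) (Ioo (0 : ℝ) 1) := by
  have hPm : AEStronglyMeasurable P (volume.restrict (Ioo (0 : ℝ) 1)) :=
    (h.co.mono Ioo_subset_Ico_self).aestronglyMeasurable measurableSet_Ioo
  have hC : 0 ≤ C := (abs_nonneg _).trans (hKb (1 / 2) (by norm_num))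
  apply Integrable.of_bound (C := C * M)
  · exact hKm.mul hPm
  · rw [ae_restrict_iff' measurableSet_Ioo]
    filter_upwards with x hx
    rw [norm_mul, Real.norm_eq_abs, Real.norm_eq_abs]
    apply mul_le_mul (hKb x hx) _ (abs_nonneg _) hC
    have hx' : x ∈ Ico (0 : ℝ) 1 := ⟨hx.1.le, hx.2⟩
    have h1 := h.lo x hx'
    have h2 := h.hi x hx'
    rw [abs_of_nonneg (by linarith)]
    linarith

/-- interval integrability from integrability on `(0,1)` -/
theorem ii_of {f : ℝ → ℝ} (hf : IntegrableOn f (Ioo (0 : ℝ) 1)) {a b : ℝ} (ha : a ∈ Icc (0 : ℝ) 1)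
    (hb : b ∈ Icc (0 : ℝ) 1) : IntervalIntegrable f volume a b := by
  have h1 : IntervalIntegrable f volume 0 1 := by
    rw [intervalIntegrable_iff_integrableOn_Ioo_of_le zero_le_one]
    exact hf
  apply h1.mono_set
  rw [uIcc_of_le zero_le_one]
  exact uIcc_subset_Icc ha hb

theorem WS.unique {K : ℝ → ℝ} {b : ℝ} {P P' : ℝ → ℝ} {c M c' M' : ℝ} (h : WS K b P c M)
    (h' : WS K b P' c' M') (hc : 0 < c) (hc' : 0 < c') {C : ℝ}
    (hKm : AEStronglyMeasurable K (volume.restrict (Ioo (0 : ℝ) 1)))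
    (hKb : ∀ x ∈ Ioo (0 : ℝ) 1, |K x| ≤ C) : ∀ x ∈ Ico (0 : ℝ) 1, P x = P' x := by
  have hC : 0 ≤ C := (abs_nonneg _).trans (hKb (1 / 2) (by norm_num))
  set L : ℝ := 2 * C / (c + c') with hL
  have hL0 : 0 ≤ L := by positivity
  have hI := h.intg hc.le hKm hKb
  have hI' := h'.intg hc'.le hKm hKb
  have hM : 0 < M := hc.trans_le ((h.lo 0 (by norm_num)).trans (h.hi 0 (by norm_num)))
  have hM' : 0 < M' := hc'.trans_le ((h'.lo 0 (by norm_num)).trans (h'.hi 0 (by norm_num)))
  have key : ∀ n : ℕ, ∀ x ∈ Ico (0 : ℝ) 1,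
      |P x ^ 2 - P' x ^ 2| ≤ (M ^ 2 + M' ^ 2) * ((L * (1 - x)) ^ n / n.factorial) := by
    intro n
    induction n with
    | zero =>
      intro x hx
      have h1 := h.lo x hx
      have h2 := h.hi x hx
      have h1' := h'.lo x hx
      have h2' := h'.hi x hx
      simp only [pow_zero, Nat.factorial_zero, Nat.cast_one, div_one, mul_one]
      rw [abs_le]
      constructor <;> nlinarith
    | succ n ih =>
      intro x hx
      have hxI : x ∈ Icc (0 : ℝ) 1 := ⟨hx.1, hx.2.le⟩
      have e1 : P x ^ 2 - P' x ^ 2 = ∫ s in x..1, 2 * (K s * P s - K s * P' s) := by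
        rw [h.eq x hx, h'.eq x hx, intervalIntegral.integral_const_mul,
          intervalIntegral.integral_sub (ii_of hI hxI (by norm_num)) (ii_of hI' hxI (by norm_num))]
        ring
      rw [e1, ← Real.norm_eq_abs]
      have e2 : ‖∫ s in x..1, 2 * (K s * P s - K s * P' s)‖ ≤
          ∫ s in x..1, L * ((M ^ 2 + M' ^ 2) * ((L * (1 - s)) ^ n / n.factorial)) := by
        apply intervalIntegral.norm_integral_le_of_norm_le hx.2.le
        · have hne : ∀ᵐ s : ℝ, s ≠ 1 := by
            simp [ae_iff]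
          filter_upwards [hne] with s hs1 hs
          have hs' : s ∈ Ico (0 : ℝ) 1 := ⟨hx.1.trans hs.1.le, lt_of_le_of_ne hs.2 hs1⟩
          have hs'' : s ∈ Ioo (0 : ℝ) 1 := ⟨hx.1.trans_lt hs.1, lt_of_le_of_ne hs.2 hs1⟩
          have h1 := h.lo s hs'
          have h1' := h'.lo s hs'
          have h3 := ih s hs'
          have h4 := hKb s hs''
          have e3 : P s ^ 2 - P' s ^ 2 = (P s + P' s) * (P s - P' s) := by ring
          rw [e3, abs_mul, abs_of_pos (by linarith)] at h3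
          have h5 : (c + c') * |P s - P' s| ≤ (M ^ 2 + M' ^ 2) * ((L * (1 - s)) ^ n / n.factorial) := by
            refine le_trans ?_ h3
            apply mul_le_mul_of_nonneg_right _ (abs_nonneg _)
            linarith
          have e4 : 2 * (K s * P s - K s * P' s) = 2 * K s * (P s - P' s) := by ring
          rw [e4, Real.norm_eq_abs, abs_mul, abs_mul, abs_of_pos (by norm_num : (0 : ℝ) < 2)]
          calc 2 * |K s| * |P s - P' s| ≤ 2 * C * |P s - P' s| := by
                apply mul_le_mul_of_nonneg_right _ (abs_nonneg _)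
                linarith
            _ = L * ((c + c') * |P s - P' s|) := by
                rw [hL]; field_simp
            _ ≤ _ := mul_le_mul_of_nonneg_left h5 hL0
        · apply Continuous.intervalIntegrable
          fun_prop
      refine e2.trans (le_of_eq ?_)
      have e5 : ∀ s : ℝ, L * ((M ^ 2 + M' ^ 2) * ((L * (1 - s)) ^ n / n.factorial)) =
          (L ^ (n + 1) * (M ^ 2 + M' ^ 2) / n.factorial) * (1 - s) ^ n := by
        intro s
        rw [mul_pow]
        field_simp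
        ring
      simp_rw [e5]
      rw [intervalIntegral.integral_const_mul,
        intervalIntegral.integral_comp_sub_left (fun y => y ^ n) 1, integral_pow]
      rw [mul_pow, Nat.factorial_succ]
      have : ((n : ℝ) + 1) ≠ 0 := by positivity
      push_cast
      field_simp
      ring
  intro x hx
  have hlim : Tendsto (fun n : ℕ => (M ^ 2 + M' ^ 2) * ((L * (1 - x)) ^ n / n.factorial)) atTop
      (𝓝 ((M ^ 2 + M' ^ 2) * 0)) :=
    (FloorSemiring.tendsto_pow_div_factorial_atTop (L * (1 - x))).const_mul _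
  have h0 : |P x ^ 2 - P' x ^ 2| ≤ (M ^ 2 + M' ^ 2) * 0 :=
    ge_of_tendsto' hlim fun n => key n x hx
  rw [mul_zero] at h0
  have h1 : P x ^ 2 - P' x ^ 2 = 0 := abs_eq_zero.mp (le_antisymm h0 (abs_nonneg _))
  have h2 : (P x + P' x) * (P x - P' x) = 0 := by linarith [h1, (by ring : P x ^ 2 - P' x ^ 2 = (P x + P' x) * (P x - P' x))]
  rcases mul_eq_zero.mp h2 with h3 | h3
  · have := h.lo x hx
    have := h'.lo x hx
    linarith
  · linarith

/-- scaling -/
theorem scale {h : ℝ → ℝ} (hcont : Continuous h) {C : ℝ} (hbd : ∀ t, |h t| ≤ C) {s s' b' : ℝ}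
    (hs : s ≤ s') (hb' : 0 < b') {P' : ℝ → ℝ}
    (hP : RS (fun x => h (s' + Real.log x)) b' P') :
    WS (fun x => h (s + Real.log x))
      ((Real.exp (2 * (s' - s)) * (1 + b') - 1) + 2 * Real.exp (2 * (s' - s)) *
        ∫ x in Real.exp (-(s' - s))..1, h (s' + Real.log x) * P' x)
      (fun x => Real.exp (s' - s) * P' (Real.exp (-(s' - s)) * x))
      (3 / 4 * Real.sqrt b') (Real.exp (s' - s) * (5 / 4 * Real.sqrt (1 + b'))) ∧
    (∫ x in (0 : ℝ)..1, (P' x)⁻¹) =
      (∫ x in (0 : ℝ)..1, (Real.exp (s' - s) * P' (Real.exp (-(s' - s)) * x))⁻¹) +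
      ∫ x in Real.exp (-(s' - s))..1, (P' x)⁻¹ := by
  set l : ℝ := Real.exp (-(s' - s)) with hl
  set m : ℝ := Real.exp (s' - s) with hm
  have hlm : m * l = 1 := by
    rw [hl, hm, ← Real.exp_add]; simp
  have hl0 : 0 < l := Real.exp_pos _
  have hm0 : 0 < m := Real.exp_pos _
  have hm1 : 1 ≤ m := by
    rw [hm, Real.one_le_exp_iff]; linarith
  have hl1 : l ≤ 1 := by
    rw [hl, Real.exp_le_one_iff]; linarith
  have hmm : Real.exp (2 * (s' - s)) = m ^ 2 := by
    rw [hm, ← Real.exp_nat_mul]; norm_num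
  have hP' := hP.ws
  have hc0 : 0 < 3 / 4 * Real.sqrt b' := by
    have := Real.sqrt_pos.mpr hb'
    positivity
  have hKm : AEStronglyMeasurable (fun x => h (s' + Real.log x))
      (volume.restrict (Ioo (0 : ℝ) 1)) :=
    (hcont.measurable.comp (measurable_const.add Real.measurable_log)).aestronglyMeasurable
  have hI : IntegrableOn (fun x => h (s' + Real.log x) * P' x) (Ioo (0 : ℝ) 1) :=
    hP'.intg hc0.le hKm (fun x _ => hbd _)
  have hI2 : IntegrableOn (fun x => (P' x)⁻¹) (Ioo (0 : ℝ) 1) := by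
    apply Integrable.of_bound (C := (3 / 4 * Real.sqrt b')⁻¹)
    · apply ContinuousOn.aestronglyMeasurable _ measurableSet_Ioo
      apply (hP.c.mono Ioo_subset_Ico_self).inv₀
      intro x hx
      have := hP'.lo x ⟨hx.1.le, hx.2⟩
      linarith
    · rw [ae_restrict_iff' measurableSet_Ioo]
      filter_upwards with x hx
      have := hP'.lo x ⟨hx.1.le, hx.2⟩
      rw [norm_inv, Real.norm_eq_abs, abs_of_pos (by linarith)]
      exact inv_anti₀ hc0 this
  have hmem : ∀ x ∈ Ico (0 : ℝ) 1, l * x ∈ Ico (0 : ℝ) 1 := by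
    intro x hx
    exact ⟨mul_nonneg hl0.le hx.1, by nlinarith [hx.1, hx.2]⟩
  refine ⟨⟨?_, ?_, ?_, ?_⟩, ?_⟩
  · apply ContinuousOn.mul continuousOn_const
    exact hP.c.comp (by fun_prop) hmem
  · intro x hx
    have h1 := hP'.lo _ (hmem x hx)
    have h2 : 0 < P' (l * x) := by linarith
    show 3 / 4 * Real.sqrt b' ≤ m * P' (l * x)
    nlinarith
  · intro x hx
    have h1 := hP'.hi _ (hmem x hx)
    exact mul_le_mul_of_nonneg_left h1 hm0.le
  · intro x hx
    have h1 := hP.eq _ (hmem x hx)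
    have hlI : l ∈ Icc (0 : ℝ) 1 := ⟨hl0.le, hl1⟩
    have hlx : l * x ∈ Icc (0 : ℝ) 1 := ⟨(hmem x hx).1, (hmem x hx).2.le⟩
    have h2 : (∫ y in (l * x)..1, h (s' + Real.log y) * P' y) =
        (∫ y in (l * x)..l, h (s' + Real.log y) * P' y) +
          ∫ y in l..1, h (s' + Real.log y) * P' y :=
      (intervalIntegral.integral_add_adjacent_intervals (ii_of hI hlx hlI)
        (ii_of hI hlI (by norm_num))).symm
    have h3 : (∫ u in x..1, h (s' + Real.log (l * u)) * P' (l * u)) =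
        l⁻¹ * ∫ y in (l * x)..l, h (s' + Real.log y) * P' y := by
      have := intervalIntegral.integral_comp_mul_left (a := x) (b := 1)
        (fun y => h (s' + Real.log y) * P' y) hl0.ne'
      rw [smul_eq_mul, mul_one] at this
      exact this
    have h4 : (∫ u in x..1, h (s' + Real.log (l * u)) * P' (l * u)) =
        ∫ u in x..1, h (s + Real.log u) * P' (l * u) := by
      apply icongr hx.2.le
      intro u hu
      have hu0 : 0 < u := hx.1.trans_lt hu.1
      rw [Real.log_mul hl0.ne' hu0.ne', hl, Real.log_exp]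
      congr 2
      ring
    have hinv : l⁻¹ = m := by
      rw [eq_comm]; exact eq_inv_of_mul_eq_one_left hlm
    have h5 : (∫ y in (l * x)..l, h (s' + Real.log y) * P' y) =
        l * ∫ u in x..1, h (s + Real.log u) * P' (l * u) := by
      rw [← h4, h3]
      field_simp
    have h6 : (∫ u in x..1, h (s + Real.log u) * (m * P' (l * u))) =
        m * ∫ u in x..1, h (s + Real.log u) * P' (l * u) := by
      rw [← intervalIntegral.integral_const_mul]
      apply intervalIntegral.integral_congr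
      intro u _
      ring
    show (m * P' (l * x)) ^ 2 = _
    rw [h6, mul_pow, h1, h2, h5, hmm]
    have e1 : m ^ 2 * (l * x) ^ 2 = x ^ 2 := by
      rw [mul_pow, ← mul_assoc, ← mul_pow, hlm]; ring
    have e2 : m ^ 2 * l = m := by
      rw [pow_two, mul_assoc, hlm, mul_one]
    linear_combination (-1) * e1 + 2 * (∫ u in x..1, h (s + Real.log u) * P' (l * u)) * e2
  · have hlI : l ∈ Icc (0 : ℝ) 1 := ⟨hl0.le, hl1⟩
    rw [← intervalIntegral.integral_add_adjacent_intervals (ii_of hI2 (by norm_num) hlI)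
        (ii_of hI2 hlI (by norm_num : (1 : ℝ) ∈ Icc (0 : ℝ) 1))]
    congr 1
    have h3 : (∫ u in (0 : ℝ)..1, (P' (l * u))⁻¹) =
        l⁻¹ * ∫ y in (0 : ℝ)..l, (P' y)⁻¹ := by
      have := intervalIntegral.integral_comp_mul_left (a := 0) (b := 1)
        (fun y => (P' y)⁻¹) hl0.ne'
      rw [smul_eq_mul, mul_one, mul_zero] at this
      exact this
    have h4 : (∫ x in (0 : ℝ)..1, (m * P' (l * x))⁻¹) = m⁻¹ * ∫ u in (0 : ℝ)..1, (P' (l * u))⁻¹ := by
      rw [← intervalIntegral.integral_const_mul]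
      apply intervalIntegral.integral_congr
      intro u _
      simp only [mul_inv]
    rw [h4, h3, ← mul_assoc, ← mul_inv, mul_comm, mul_comm m l, mul_comm l m, hlm]
    simp

end Pool.Agent.W162.UN
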